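import Pool.Agent.Helper95.SH.Win

/-!
# Project RC, SHARP, cell engine: completing the squares for the tail arrays

`sq_rows`: the linear terms of the tail are bounded below by the squares of the rows, the first rows one by one, the far
rows as a sum. `Yr_herm`, `Zr_herm`: the rows of the hermitian arrays are hermitian.
-/

open MeasureTheory Set Filter Topology

namespace Helper71.SH

open Helper95.SH
open Helper95.RC
open Helper56.RC (fc)

/-- one pairing: completing the square on the support -/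
theorem base {N : ℕ} {s X : ℤ → ℂ} {q : ℤ → Prop} [DecidablePred q] (hs : ∀ n, ¬ q n → s n = 0) {t : ℝ} (ht : 0 < t) :
    -(1 / t * ∑ n ∈ (Finset.Icc (-(N : ℤ)) N).filter q, ‖X n‖ ^ 2) ≤
      2 * dt N s X + t * ∑ n ∈ Finset.Icc (-(N : ℤ)) N, ‖s n‖ ^ 2 := by
  have e1 : 2 * dt N s X + t * ∑ n ∈ Finset.Icc (-(N : ℤ)) N, ‖s n‖ ^ 2 =
      ∑ n ∈ Finset.Icc (-(N : ℤ)) N, (2 * (s n * (starRingEnd ℂ) (X n)).re + t * ‖s n‖ ^ 2) := by
    unfold dt
    rw [Complex.re_sum, Finset.mul_sum, Finset.mul_sum, ← Finset.sum_add_distrib]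
  rw [e1, Finset.sum_filter, Finset.mul_sum, ← Finset.sum_neg_distrib]
  refine Finset.sum_le_sum fun n _ => ?_
  by_cases hq : q n
  · rw [if_pos hq]
    have h1 : (s n * (starRingEnd ℂ) (X n)).re = (s n).re * (X n).re + (s n).im * (X n).im := by
      rw [Complex.mul_re, Complex.conj_re, Complex.conj_im]; ring
    have h2 : ∀ x : ℂ, ‖x‖ ^ 2 = x.re ^ 2 + x.im ^ 2 := fun x => by
      rw [← Complex.normSq_eq_norm_sq, Complex.normSq_apply]; ring
    rw [h1, h2, h2]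
    have h3 : 2 * ((s n).re * (X n).re + (s n).im * (X n).im) + t * ((s n).re ^ 2 + (s n).im ^ 2)
        - -(1 / t * ((X n).re ^ 2 + (X n).im ^ 2)) =
        ((t * (s n).re + (X n).re) ^ 2 + (t * (s n).im + (X n).im) ^ 2) / t := by
      field_simp
      ring
    have h4 : 0 ≤ ((t * (s n).re + (X n).re) ^ 2 + (t * (s n).im + (X n).im) ^ 2) / t := by positivity
    linarith
  · rw [if_neg hq, hs n hq]
    simp

/-- both signs -/
theorem two_side (g : ℤ → ℝ) (N : ℕ) (c : ℤ) (hc : 0 ≤ c) (q : ℤ → Prop) [DecidablePred q] (hq : ∀ n, q (-n) ↔ q n) :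
    ∑ n ∈ (Finset.Icc (-(N : ℤ)) N).filter (fun n => q n ∧ c < |n|), g n =
      ∑ n ∈ (Finset.Icc (c + 1) (N : ℤ)).filter q, (g n + g (-n)) := by
  rw [Finset.sum_add_distrib]
  have h1 : ∑ n ∈ (Finset.Icc (c + 1) (N : ℤ)).filter q, g (-n) =
      ∑ n ∈ ((Finset.Icc (-(N : ℤ)) N).filter (fun n => q n ∧ c < |n|)).filter (fun n => ¬ 0 < n), g n := by
    refine Finset.sum_nbij' (fun n => -n) (fun n => -n) ?_ ?_ ?_ ?_ ?_
    · intro n hn
      rw [Finset.mem_filter, Finset.mem_Icc] at hn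
      rw [Finset.mem_filter, Finset.mem_filter, Finset.mem_Icc, hq, abs_neg, lt_abs]
      refine ⟨⟨?_, hn.2, ?_⟩, ?_⟩ <;> omega
    · intro n hn
      rw [Finset.mem_filter, Finset.mem_filter, Finset.mem_Icc, lt_abs] at hn
      rw [Finset.mem_filter, Finset.mem_Icc, hq]
      refine ⟨?_, hn.1.2.1⟩
      omega
    · intro n _; ring
    · intro n _; ring
    · intro n _; rfl
  have h2 : ((Finset.Icc (-(N : ℤ)) N).filter (fun n => q n ∧ c < |n|)).filter (fun n => 0 < n) =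
      (Finset.Icc (c + 1) (N : ℤ)).filter q := by
    ext n
    rw [Finset.mem_filter, Finset.mem_filter, Finset.mem_filter, Finset.mem_Icc, Finset.mem_Icc, lt_abs]
    constructor
    · rintro ⟨⟨h3, h4, h5⟩, h6⟩
      exact ⟨by omega, h4⟩
    · rintro ⟨h3, h4⟩
      exact ⟨⟨by omega, h4, by omega⟩, by omega⟩
  rw [h1, ← h2]
  exact (Finset.sum_filter_add_sum_filter_not _ _ _).symm

/-- the first `J` rows one by one -/
theorem first_rows (g : ℤ → ℝ) (hg : ∀ n, 0 ≤ g n) (N K J : ℕ) (q : ℤ → Prop) [DecidablePred q]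
    (hq : ∀ n, q n → Even (n - K)) :
    ∑ n ∈ (Finset.Icc ((K : ℤ) + 1) (N : ℤ)).filter q, g n ≤
      ∑ j ∈ Finset.range J, g ((K : ℤ) + 2 + 2 * j)
        + ∑ n ∈ (Finset.Icc ((K : ℤ) + 2 * J + 1) (N : ℤ)).filter q, g n := by
  have inj : ∀ a ∈ Finset.range J, ∀ b ∈ Finset.range J,
      ((K : ℤ) + 2 + 2 * (a : ℤ)) = (K : ℤ) + 2 + 2 * (b : ℤ) → a = b := by
    intro a _ b _ h
    omega
  rw [← Finset.sum_image (f := g) (g := fun j : ℕ => (K : ℤ) + 2 + 2 * (j : ℤ)) inj]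
  have hdis : Disjoint ((Finset.range J).image fun j : ℕ => (K : ℤ) + 2 + 2 * (j : ℤ))
      ((Finset.Icc ((K : ℤ) + 2 * J + 1) (N : ℤ)).filter q) := by
    rw [Finset.disjoint_left]
    intro n hn hn'
    rw [Finset.mem_image] at hn
    obtain ⟨j, hj, rfl⟩ := hn
    rw [Finset.mem_filter, Finset.mem_Icc] at hn'
    rw [Finset.mem_range] at hj
    omega
  rw [← Finset.sum_union hdis]
  refine Finset.sum_le_sum_of_subset_of_nonneg ?_ fun n _ _ => hg n
  intro n hn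
  rw [Finset.mem_filter, Finset.mem_Icc] at hn
  obtain ⟨⟨h1, h2⟩, h3⟩ := hn
  obtain ⟨m, hm⟩ := hq n h3
  rw [Finset.mem_union, Finset.mem_image, Finset.mem_filter, Finset.mem_Icc]
  by_cases h : n < (K : ℤ) + 2 * J + 1
  · left
    refine ⟨(m - 1).toNat, ?_, ?_⟩
    · rw [Finset.mem_range]; omega
    · omega
  · right
    exact ⟨by omega, h3⟩

/-- **completing the squares for the tail arrays** -/
theorem sq_rows {N K L J1 J2 : ℕ} (hK : ¬ Even K) (hL : Even L) {p r s : ℤ → ℂ} (a : Arr N p r s)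
    (h : TlKL K L p r s) {X Y Z : ℤ → ℂ} (hY : ∀ n, Y (-n) = (starRingEnd ℂ) (Y n))
    (hZ : ∀ n, Z (-n) = (starRingEnd ℂ) (Z n)) {tz t2 t3 : ℝ} (h1 : 0 < tz) (h2 : 0 < t2) (h3 : 0 < t3) :
    -(1 / tz * ∑ j ∈ Finset.range J1, (‖X ((K : ℤ) + 2 + 2 * j)‖ ^ 2 + ‖X (-((K : ℤ) + 2 + 2 * j))‖ ^ 2)
        + 2 / t2 * ∑ j ∈ Finset.range J2, ‖Y ((L : ℤ) + 2 + 2 * j)‖ ^ 2
        + 2 / t3 * ∑ j ∈ Finset.range J2, ‖Z ((L : ℤ) + 2 + 2 * j)‖ ^ 2)
      - (1 / tz * ∑ n ∈ (Finset.Icc (-(N : ℤ)) N).filter (fun n => ¬ Even n ∧ (K : ℤ) + 2 * J1 < |n|), ‖X n‖ ^ 2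
        + 2 / t2 * ∑ n ∈ (Finset.Icc ((L : ℤ) + 2 * J2 + 1) (N : ℤ)).filter Even, ‖Y n‖ ^ 2
        + 2 / t3 * ∑ n ∈ (Finset.Icc ((L : ℤ) + 2 * J2 + 1) (N : ℤ)).filter Even, ‖Z n‖ ^ 2) ≤
      2 * dt N s X + 2 * dt N p Y + 2 * dt N r Z
        + (tz * ∑ n ∈ Finset.Icc (-(N : ℤ)) N, ‖s n‖ ^ 2 + t2 * ∑ n ∈ Finset.Icc (-(N : ℤ)) N, ‖p n‖ ^ 2
          + t3 * ∑ n ∈ Finset.Icc (-(N : ℤ)) N, ‖r n‖ ^ 2) := by
  -- the array `s`
  have bs := base (N := N) (s := s) (X := X) (q := fun n => ¬ Even n ∧ (K : ℤ) < |n|) (fun n hn => by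
    by_cases he : Even n
    · exact a.es n he
    · refine h.s0 n ?_
      rw [Finset.mem_Icc]
      have : |n| ≤ K := by
        by_contra hc
        exact hn ⟨he, not_le.1 hc⟩
      exact abs_le.1 this) h1
  have hodd : ∀ n : ℤ, ¬ Even (-n) ↔ ¬ Even n := fun n => by rw [even_neg]
  have fs := first_rows (fun n => ‖X n‖ ^ 2 + ‖X (-n)‖ ^ 2) (fun n => by positivity) N K J1
    (fun n => ¬ Even n) (fun n hn => by
      have hK' : ¬ Even (K : ℤ) := fun hc => hK (by exact_mod_cast hc)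
      rw [Int.even_sub]
      tauto)
  have ts1 := two_side (fun n => ‖X n‖ ^ 2) N (K : ℤ) (by positivity) (fun n => ¬ Even n) hodd
  have ts2 := two_side (fun n => ‖X n‖ ^ 2) N ((K : ℤ) + 2 * J1) (by positivity) (fun n => ¬ Even n) hodd
  beta_reduce at fs ts1 ts2
  rw [← ts1, ← ts2] at fs
  -- the hermitian arrays
  have herm : ∀ {u W : ℤ → ℂ} {t : ℝ}, 0 < t → (∀ n, ¬ Even n → u n = 0) →
      (∀ n : ℤ, n ∈ Finset.Icc (-(L : ℤ)) L → u n = 0) → (∀ n, W (-n) = (starRingEnd ℂ) (W n)) →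
      -(2 / t * ∑ j ∈ Finset.range J2, ‖W ((L : ℤ) + 2 + 2 * j)‖ ^ 2)
        - 2 / t * ∑ n ∈ (Finset.Icc ((L : ℤ) + 2 * J2 + 1) (N : ℤ)).filter Even, ‖W n‖ ^ 2 ≤
      2 * dt N u W + t * ∑ n ∈ Finset.Icc (-(N : ℤ)) N, ‖u n‖ ^ 2 := by
    intro u W t ht hu hu0 hW
    have b := base (N := N) (s := u) (X := W) (q := fun n => Even n ∧ (L : ℤ) < |n|) (fun n hn => by
      by_cases he : Even n
      · refine hu0 n ?_
        rw [Finset.mem_Icc]
        have : |n| ≤ L := by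
          by_contra hc
          exact hn ⟨he, not_le.1 hc⟩
        exact abs_le.1 this
      · exact hu n he) ht
    have f := first_rows (fun n => ‖W n‖ ^ 2) (fun n => by positivity) N L J2 (fun n => Even n) (fun n hn => by
      have hL' : Even (L : ℤ) := by exact_mod_cast hL
      rw [Int.even_sub]
      tauto)
    have t1 := two_side (fun n => ‖W n‖ ^ 2) N (L : ℤ) (by positivity) (fun n => Even n) (fun n => even_neg)
    beta_reduce at f t1
    have t2 : ∑ n ∈ (Finset.Icc ((L : ℤ) + 1) (N : ℤ)).filter (fun n => Even n), (‖W n‖ ^ 2 + ‖W (-n)‖ ^ 2) =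
        2 * ∑ n ∈ (Finset.Icc ((L : ℤ) + 1) (N : ℤ)).filter (fun n => Even n), ‖W n‖ ^ 2 := by
      rw [Finset.mul_sum]
      refine Finset.sum_congr rfl fun n _ => ?_
      rw [hW n, Complex.norm_conj]
      ring
    rw [t1, t2] at b
    have h4 : 0 < 1 / t := by positivity
    have h5 := mul_le_mul_of_nonneg_left f h4.le
    have e : 2 / t = 2 * (1 / t) := by ring
    rw [e]
    linarith
  have hp := herm h2 a.ep h.p0 hY
  have hr := herm h3 a.er h.r0 hZ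
  have h5 := mul_le_mul_of_nonneg_left fs (one_div_pos.2 h1).le
  rw [mul_add] at h5
  linarith

/-! ### the rows are hermitian -/

theorem sy_herm (A : ℤ → ℂ) (n : ℤ) : sy A (-n) = (starRingEnd ℂ) (sy A n) := by
  unfold sy
  rw [map_div₀, map_add, Complex.conj_conj, Complex.conj_ofNat, neg_neg]
  ring

theorem wm_hm (η : ℂ) {p : ℤ → ℂ} (hp : ∀ n, p (-n) = (starRingEnd ℂ) (p n)) (n : ℤ) :
    wm η p (-n) = (starRingEnd ℂ) (wm η p n) := by
  unfold wm
  rw [map_add, map_add, map_mul, map_mul, Complex.conj_conj, hp n, show -n - 2 = -(n + 2) by ring,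
    show -n + 2 = -(n - 2) by ring, hp, hp]
  ring

section

variable (c : CD) {N : ℕ} {p r s : ℤ → ℂ}

theorem Yr_herm (a : Arr N p r s) (n : ℤ) : Yr c N p r s (-n) = (starRingEnd ℂ) (Yr c N p r s n) := by
  have hz : ∀ n, zep c p (-n) = (starRingEnd ℂ) (zep c p n) := fun n => by
    unfold zep
    rw [map_sub, a.hp n, fc_real_neg (fun t => c.L.b2s t) n]
  unfold Yr
  rw [sy_herm, wm_hm c.P.eta a.hp n, wm_hm c.P.eta hz n, hz n]
  simp only [map_add, map_sub, map_mul, Complex.conj_ofReal, map_div₀, Complex.conj_ofNat]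

theorem Zr_herm (a : Arr N p r s) (n : ℤ) : Zr c N p r s (-n) = (starRingEnd ℂ) (Zr c N p r s n) := by
  have hz : ∀ n, zer c r (-n) = (starRingEnd ℂ) (zer c r n) := fun n => by
    unfold zer
    rw [map_sub, a.hr n, fc_real_neg (fun t => c.L.b3s t) n]
  unfold Zr
  rw [sy_herm, wm_hm c.P.eta a.hr n, wm_hm c.P.eta hz n, hz n]
  simp only [map_add, map_sub, map_mul, Complex.conj_ofReal, map_div₀, Complex.conj_ofNat]

end

end Helper71.SH
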