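import Pool.Agent.Helper25.SH.Mat
import Pool.Agent.Helper43.CL.LBk

/-!
# Project RC, SHARP, cell engine: the blocks of the kernel check as lower bounds of the pieces

Rows at the scale `q` (`2 ^ 56`), the form at the scale `S = G q²` (`10 ^ 9 * 2 ^ 112`). `LB_sqm`, `LB_sqp`: sums of squares,
`LB_bl`: sums of products, `LB_rows`: one block per row of `(D2)`, bounds of the digits per functional;
`pkD`: two digits of two packed numbers.
-/

set_option autoImplicit false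

namespace Helper71.SH

open Helper95.SH
open Helper25.SH.Mat
open Helper43.CL (LB)

theorem sqv_nn (n : ℕ) (v : ℕ → ℝ) : 0 ≤ sqv n v := Finset.sum_nonneg fun _ _ => sq_nonneg _

theorem S_eq : (10 : ℝ) ^ 9 * 2 ^ 112 = 10 ^ 9 * (2 ^ 56 * 2 ^ 56) := by ring

/-- a finite sum of pieces -/
theorem LB_sum {n k : ℕ} {S : ℝ} {g I : ℕ → (ℕ → ℝ) → ℝ} {E : ℕ → ℝ} (h : ∀ j < k, LB n S (g j) (I j) (E j)) :
    LB n S (fun v => ∑ j ∈ Finset.range k, g j v) (fun v => ∑ j ∈ Finset.range k, I j v)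
      (∑ j ∈ Finset.range k, E j) := by
  intro v hv
  beta_reduce
  rw [Finset.sum_mul, ← Finset.sum_sub_distrib, Finset.mul_sum]
  exact Finset.sum_le_sum fun j hj => h j (Finset.mem_range.1 hj) v hv

theorem val_sqt (b n W m : ℕ) (A : List ℕ) (v : ℕ → ℝ) :
    Blk.val b n v (.sq true W m A) = -((W : ℝ) * ∑ k ∈ Finset.range m, iv n (row b A k) v ^ 2) := by
  show sgr true * _ = _
  unfold sgr
  rw [cond_true]
  ring

theorem val_sqf (b n W m : ℕ) (A : List ℕ) (v : ℕ → ℝ) :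
    Blk.val b n v (.sq false W m A) = (W : ℝ) * ∑ k ∈ Finset.range m, iv n (row b A k) v ^ 2 := by
  show sgr false * _ = _
  unfold sgr
  rw [cond_false]
  ring

section

variable {n b m W : ℕ} {A B : List ℕ} {X Y : ℕ → (ℕ → ℝ) → ℝ} {e w G q S : ℝ} {R : ℕ → ℝ}

/-- the squares of rows -/
theorem sq_two (hX : ∀ c < m, LR n q (X c) (row b A c) e) (hR : ∀ c < m, ∀ i < n, |(row b A c i : ℝ)| ≤ R c)
    (he : 0 ≤ e) (hR0 : ∀ c < m, 0 ≤ R c) {v : ℕ → ℝ} (hv : v 0 = 1) :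
    |q * q * ∑ c ∈ Finset.range m, X c v ^ 2 - ∑ c ∈ Finset.range m, iv n (row b A c) v ^ 2| ≤
      (∑ c ∈ Finset.range m, n * (2 * R c * e + e ^ 2)) * sqv n v := by
  rw [Finset.mul_sum, ← Finset.sum_sub_distrib, Finset.sum_mul]
  refine (Finset.abs_sum_le_sum_abs _ _).trans (Finset.sum_le_sum fun c hc => ?_)
  have hc' := Finset.mem_range.1 hc
  have h := LR.mulv (hX c hc') (hX c hc') (hR c hc') (hR c hc') he he (hR0 c hc') (hR0 c hc') hv
  have e1 : q * q * (X c v * X c v) - iv n (row b A c) v * iv n (row b A c) v =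
      q * q * X c v ^ 2 - iv n (row b A c) v ^ 2 := by ring
  have e2 : (n : ℝ) * (R c * e + R c * e + e * e) * sqv n v = n * (2 * R c * e + e ^ 2) * sqv n v := by ring
  rw [e1, e2] at h
  exact h

/-- the products of rows -/
theorem bl_two {q1 q2 eA eB : ℝ} {RA RB : ℕ → ℝ} (hX : ∀ c < m, LR n q1 (X c) (row b A c) eA)
    (hY : ∀ c < m, LR n q2 (Y c) (row b B c) eB) (hA : ∀ c < m, ∀ i < n, |(row b A c i : ℝ)| ≤ RA c)
    (hB : ∀ c < m, ∀ i < n, |(row b B c i : ℝ)| ≤ RB c) (h1 : 0 ≤ eA) (h2 : 0 ≤ eB) (h3 : ∀ c < m, 0 ≤ RA c)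
    (h4 : ∀ c < m, 0 ≤ RB c) {v : ℕ → ℝ} (hv : v 0 = 1) :
    |q1 * q2 * ∑ c ∈ Finset.range m, X c v * Y c v - ∑ c ∈ Finset.range m, iv n (row b A c) v * iv n (row b B c) v| ≤
      (∑ c ∈ Finset.range m, n * (RA c * eB + RB c * eA + eA * eB)) * sqv n v := by
  rw [Finset.mul_sum, ← Finset.sum_sub_distrib, Finset.sum_mul]
  refine (Finset.abs_sum_le_sum_abs _ _).trans (Finset.sum_le_sum fun c hc => ?_)
  have hc' := Finset.mem_range.1 hc
  exact LR.mulv (hX c hc') (hY c hc') (hA c hc') (hB c hc') h1 h2 (h3 c hc') (h4 c hc') hv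

/-- **minus squares**: `G w ≤ W` -/
theorem LB_sqm (hS : S = G * (q * q)) (hX : ∀ c < m, LR n q (X c) (row b A c) e)
    (hR : ∀ c < m, ∀ i < n, |(row b A c i : ℝ)| ≤ R c) (he : 0 ≤ e) (hR0 : ∀ c < m, 0 ≤ R c) (hG : 0 ≤ G)
    (hW : G * w ≤ W) {g : (ℕ → ℝ) → ℝ} (hg : ∀ v, v 0 = 1 → -(w * ∑ c ∈ Finset.range m, X c v ^ 2) ≤ g v) :
    LB n S g (fun v => Blk.val b n v (.sq true W m A)) (W * ∑ c ∈ Finset.range m, n * (2 * R c * e + e ^ 2)) := by
  intro v hv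
  beta_reduce
  rw [val_sqt, hS]
  have h1 := (abs_le.1 (sq_two hX hR he hR0 hv)).2
  set Q1 := ∑ c ∈ Finset.range m, X c v ^ 2 with hQ1
  set T := ∑ c ∈ Finset.range m, iv n (row b A c) v ^ 2 with hT
  set F := ∑ c ∈ Finset.range m, (n : ℝ) * (2 * R c * e + e ^ 2) with hF
  have hS0 : 0 ≤ Q1 := Finset.sum_nonneg fun _ _ => sq_nonneg _
  have hq : 0 ≤ q * q := mul_self_nonneg q
  have hW0 : (0 : ℝ) ≤ W := Nat.cast_nonneg W
  have h3 := mul_le_mul_of_nonneg_left h1 hW0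
  have h4 : G * w * (q * q * Q1) ≤ W * (q * q * Q1) := mul_le_mul_of_nonneg_right hW (mul_nonneg hq hS0)
  have h5 : G * (q * q) * -(w * Q1) ≤ G * (q * q) * g v := mul_le_mul_of_nonneg_left (hg v hv) (mul_nonneg hG hq)
  have e1 : G * (q * q) * -(w * Q1) = -(G * w * (q * q * Q1)) := by ring
  rw [e1] at h5
  rw [mul_sub] at h3
  have e2 : (W : ℝ) * F * sqv n v = W * (F * sqv n v) := by ring
  rw [e2]
  linarith

/-- **plus squares**: `W ≤ G w` -/
theorem LB_sqp (hS : S = G * (q * q)) (hX : ∀ c < m, LR n q (X c) (row b A c) e)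
    (hR : ∀ c < m, ∀ i < n, |(row b A c i : ℝ)| ≤ R c) (he : 0 ≤ e) (hR0 : ∀ c < m, 0 ≤ R c) (hG : 0 ≤ G)
    (hW : (W : ℝ) ≤ G * w) {g : (ℕ → ℝ) → ℝ} (hg : ∀ v, v 0 = 1 → w * ∑ c ∈ Finset.range m, X c v ^ 2 ≤ g v) :
    LB n S g (fun v => Blk.val b n v (.sq false W m A)) (W * ∑ c ∈ Finset.range m, n * (2 * R c * e + e ^ 2)) := by
  intro v hv
  beta_reduce
  rw [val_sqf, hS]
  have h1 := (abs_le.1 (sq_two hX hR he hR0 hv)).1
  set Q1 := ∑ c ∈ Finset.range m, X c v ^ 2 with hQ1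
  set T := ∑ c ∈ Finset.range m, iv n (row b A c) v ^ 2 with hT
  set F := ∑ c ∈ Finset.range m, (n : ℝ) * (2 * R c * e + e ^ 2) with hF
  have hS0 : 0 ≤ Q1 := Finset.sum_nonneg fun _ _ => sq_nonneg _
  have hq : 0 ≤ q * q := mul_self_nonneg q
  have hW0 : (0 : ℝ) ≤ W := Nat.cast_nonneg W
  have h3 := mul_le_mul_of_nonneg_left h1 hW0
  have h4 : (W : ℝ) * (q * q * Q1) ≤ G * w * (q * q * Q1) := mul_le_mul_of_nonneg_right hW (mul_nonneg hq hS0)
  have h5 : G * (q * q) * (w * Q1) ≤ G * (q * q) * g v := mul_le_mul_of_nonneg_left (hg v hv) (mul_nonneg hG hq)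
  have e1 : G * (q * q) * (w * Q1) = G * w * (q * q * Q1) := by ring
  rw [e1] at h5
  rw [mul_sub] at h3
  have e2 : (W : ℝ) * F * sqv n v = W * (F * sqv n v) := by ring
  rw [e2]
  linarith

/-- **products**: `G w = ± 2 W` -/
theorem LB_bl {s : Bool} {q1 q2 eA eB : ℝ} {RA RB : ℕ → ℝ} (hS : S = G * (q1 * q2))
    (hX : ∀ c < m, LR n q1 (X c) (row b A c) eA)
    (hY : ∀ c < m, LR n q2 (Y c) (row b B c) eB) (hA : ∀ c < m, ∀ i < n, |(row b A c i : ℝ)| ≤ RA c)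
    (hB : ∀ c < m, ∀ i < n, |(row b B c i : ℝ)| ≤ RB c) (h1 : 0 ≤ eA) (h2 : 0 ≤ eB) (h3 : ∀ c < m, 0 ≤ RA c)
    (h4 : ∀ c < m, 0 ≤ RB c) (hG : 0 ≤ S) (hW : G * w = sgr s * (2 * W)) {g : (ℕ → ℝ) → ℝ}
    (hg : ∀ v, v 0 = 1 → w * ∑ c ∈ Finset.range m, X c v * Y c v ≤ g v) :
    LB n S g (fun v => Blk.val b n v (.bl s W m A B))
      (2 * W * ∑ c ∈ Finset.range m, n * (RA c * eB + RB c * eA + eA * eB)) := by
  intro v hv
  beta_reduce
  have hval : Blk.val b n v (.bl s W m A B) =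
      sgr s * (2 * W) * ∑ k ∈ Finset.range m, iv n (row b A k) v * iv n (row b B k) v := by
    show sgr s * (2 * W * _) = _
    ring
  rw [hval]
  have h5 := bl_two hX hY hA hB h1 h2 h3 h4 hv
  set Q1 := ∑ c ∈ Finset.range m, X c v * Y c v with hQ1
  set T := ∑ c ∈ Finset.range m, iv n (row b A c) v * iv n (row b B c) v with hT
  set F := ∑ c ∈ Finset.range m, (n : ℝ) * (RA c * eB + RB c * eA + eA * eB) with hF
  have h6 : S * (w * Q1) ≤ S * g v := mul_le_mul_of_nonneg_left (hg v hv) hG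
  have h7 : S * (w * Q1) = sgr s * (2 * W) * (q1 * q2 * Q1) := by
    rw [← hW, hS]; ring
  have h8 : |sgr s * (2 * (W : ℝ))| = 2 * W := by
    unfold sgr
    cases s
    · rw [cond_false, one_mul, abs_of_nonneg (by positivity)]
    · rw [cond_true, neg_one_mul, abs_neg, abs_of_nonneg (by positivity)]
  have h9 : sgr s * (2 * W) * T - sgr s * (2 * W) * (q1 * q2 * Q1) ≤ 2 * W * (F * sqv n v) := by
    have e1 : sgr s * (2 * W) * T - sgr s * (2 * W) * (q1 * q2 * Q1) = -(sgr s * (2 * W) * (q1 * q2 * Q1 - T)) := by ring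
    rw [e1]
    refine (neg_le_abs _).trans ?_
    rw [abs_mul, h8]
    exact mul_le_mul_of_nonneg_left h5 (by positivity)
  have e2 : 2 * (W : ℝ) * F * sqv n v = 2 * W * (F * sqv n v) := by ring
  rw [e2]
  linarith

end

/-! ### one block per row of `(D2)` -/

/-- the blocks of the rows -/
def rowBlks (k1 : ℕ) (W : ℕ → ℕ) (AD : ℕ → List ℕ) : List Blk :=
  (List.range k1).map fun k => Blk.sq true (W k) 2 (AD k)

theorem list_range_sum (k : ℕ) (f : ℕ → ℝ) : ((List.range k).map f).sum = ∑ j ∈ Finset.range k, f j := by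
  induction k with
  | zero => simp
  | succ k ih => rw [List.range_succ, List.map_append, List.sum_append, ih, Finset.sum_range_succ]; simp

/-- **rows with own weights and own digit bounds** -/
theorem LB_rows {n b k1 : ℕ} {W : ℕ → ℕ} {AD : ℕ → List ℕ} {Z : ℕ → (ℕ → ℝ) → ℂ} {e G q S : ℝ} {R w : ℕ → ℝ}
    (hS : S = G * (q * q))
    (hre : ∀ k < k1, LR n q (fun v => (Z k v).re) (row b (AD k) 0) e)
    (him : ∀ k < k1, LR n q (fun v => (Z k v).im) (row b (AD k) 1) e)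
    (hR : ∀ k < k1, ∀ c < 2, ∀ i < n, |(row b (AD k) c i : ℝ)| ≤ R k) (he : 0 ≤ e) (hR0 : ∀ k < k1, 0 ≤ R k)
    (hG : 0 ≤ G) (hW : ∀ k < k1, G * w k ≤ W k) {g : (ℕ → ℝ) → ℝ}
    (hg : ∀ v, v 0 = 1 → -∑ k ∈ Finset.range k1, w k * ‖Z k v‖ ^ 2 ≤ g v) :
    LB n S g (fun v => ((rowBlks k1 W AD).map (Blk.val b n v)).sum)
      (2 * n * ∑ k ∈ Finset.range k1, (W k : ℝ) * (2 * R k * e + e ^ 2)) := by
  have h1 : ∀ k < k1, LB n S (fun v => -(w k * ∑ c ∈ Finset.range 2, (if c = 0 then (Z k v).re else (Z k v).im) ^ 2))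
      (fun v => Blk.val b n v (.sq true (W k) 2 (AD k))) (W k * ∑ c ∈ Finset.range 2, (n : ℝ) * (2 * R k * e + e ^ 2)) := by
    intro k hk
    exact LB_sqm (n := n) (b := b) (m := 2) (W := W k) (A := AD k)
      (X := fun c v => if c = 0 then (Z k v).re else (Z k v).im) (e := e) (R := fun _ => R k) (w := w k) hS
      (fun c hc => by
        interval_cases c
        · simpa using hre k hk
        · simpa using him k hk) (hR k hk) he (fun _ _ => hR0 k hk) hG (hW k hk)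
      (g := fun v => -(w k * ∑ c ∈ Finset.range 2, (if c = 0 then (Z k v).re else (Z k v).im) ^ 2))
      (fun v _ => le_rfl)
  intro v hv
  have h2 := LB_sum h1 v hv
  beta_reduce at h2
  have hS0 : 0 ≤ S := by rw [hS]; exact mul_nonneg hG (mul_self_nonneg q)
  have h3 := mul_le_mul_of_nonneg_left (hg v hv) hS0
  have e1 : ((rowBlks k1 W AD).map (Blk.val b n v)).sum =
      ∑ k ∈ Finset.range k1, Blk.val b n v (.sq true (W k) 2 (AD k)) := by
    unfold rowBlks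
    rw [List.map_map]
    exact list_range_sum k1 _
  have e2 : ∑ k ∈ Finset.range k1, -(w k * ∑ c ∈ Finset.range 2, (if c = 0 then (Z k v).re else (Z k v).im) ^ 2) =
      -∑ k ∈ Finset.range k1, w k * ‖Z k v‖ ^ 2 := by
    rw [← Finset.sum_neg_distrib]
    refine Finset.sum_congr rfl fun k _ => ?_
    rw [Finset.sum_range_succ, Finset.sum_range_one, if_pos rfl, if_neg (by norm_num), ← Complex.normSq_eq_norm_sq,
      Complex.normSq_apply]
    ring
  have e3 : ∑ k ∈ Finset.range k1, (W k : ℝ) * ∑ c ∈ Finset.range 2, (n : ℝ) * (2 * R k * e + e ^ 2) =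
      2 * n * ∑ k ∈ Finset.range k1, (W k : ℝ) * (2 * R k * e + e ^ 2) := by
    rw [Finset.mul_sum]
    refine Finset.sum_congr rfl fun k _ => ?_
    rw [Finset.sum_const, Finset.card_range, nsmul_eq_mul]
    push_cast
    ring
  beta_reduce
  rw [e1]
  rw [e2, e3] at h2
  exact h2.trans h3

/-! ### enumerations of real and imaginary parts -/

/-- alternating: `re, im, re, im, ..` -/
noncomputable def riA (F : ℕ → ℂ) (c : ℕ) : ℝ := if c % 2 = 0 then (F (c / 2)).re else (F (c / 2)).im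
/-- first all real parts, then all imaginary parts -/
noncomputable def riC (J : ℕ) (F : ℕ → ℂ) (c : ℕ) : ℝ := if c < J then (F c).re else (F (c - J)).im

theorem nsq (z : ℂ) : ‖z‖ ^ 2 = z.re ^ 2 + z.im ^ 2 := by
  rw [← Complex.normSq_eq_norm_sq, Complex.normSq_apply]
  ring

theorem riA_sum (J : ℕ) (F : ℕ → ℂ) :
    ∑ c ∈ Finset.range (2 * J), riA F c ^ 2 = ∑ j ∈ Finset.range J, ‖F j‖ ^ 2 := by
  induction J with
  | zero => simp
  | succ J ih =>
    rw [show 2 * (J + 1) = 2 * J + 1 + 1 by ring, Finset.sum_range_succ, Finset.sum_range_succ, ih,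
      Finset.sum_range_succ, nsq (F J)]
    unfold riA
    rw [if_pos (by omega), if_neg (by omega), show 2 * J / 2 = J by omega, show (2 * J + 1) / 2 = J by omega]
    ring

theorem riC_sum (J : ℕ) (F : ℕ → ℂ) :
    ∑ c ∈ Finset.range (2 * J), riC J F c ^ 2 = ∑ j ∈ Finset.range J, ‖F j‖ ^ 2 := by
  rw [two_mul, Finset.sum_range_add, ← Finset.sum_add_distrib]
  refine Finset.sum_congr rfl fun j hj => ?_
  have hj' := Finset.mem_range.1 hj
  unfold riC
  rw [if_pos hj', if_neg (by omega), Nat.add_sub_cancel_left, nsq]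

/-- two families one after the other -/
def catF (J : ℕ) (F G : ℕ → ℂ) (j : ℕ) : ℂ := if j < J then F j else G (j - J)
/-- two families alternating -/
def altF (F G : ℕ → ℂ) (j : ℕ) : ℂ := if j % 2 = 0 then F (j / 2) else G (j / 2)

theorem catF_sum (J : ℕ) (F G : ℕ → ℂ) :
    ∑ j ∈ Finset.range (2 * J), ‖catF J F G j‖ ^ 2 = ∑ j ∈ Finset.range J, (‖F j‖ ^ 2 + ‖G j‖ ^ 2) := by
  rw [two_mul, Finset.sum_range_add, ← Finset.sum_add_distrib]
  refine Finset.sum_congr rfl fun j hj => ?_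
  have hj' := Finset.mem_range.1 hj
  unfold catF
  rw [if_pos hj', if_neg (by omega), Nat.add_sub_cancel_left]

theorem altF_sum (J : ℕ) (F G : ℕ → ℂ) :
    ∑ j ∈ Finset.range (2 * J), ‖altF F G j‖ ^ 2 = ∑ j ∈ Finset.range J, (‖F j‖ ^ 2 + ‖G j‖ ^ 2) := by
  induction J with
  | zero => simp
  | succ J ih =>
    rw [show 2 * (J + 1) = 2 * J + 1 + 1 by ring, Finset.sum_range_succ, Finset.sum_range_succ, ih,
      Finset.sum_range_succ]
    unfold altF
    rw [if_pos (by omega), if_neg (by omega), show 2 * J / 2 = J by omega, show (2 * J + 1) / 2 = J by omega]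
    ring

/-! ### two digits of two packed numbers, other base -/

/-- digit `k` of `X` and of `Y` (base `2 ^ (b + 1)`) as two digits of the base `2 ^ (b' + 1)`; `sh = (b + 1) k`,
`M = 2 ^ (b + 1)`, `o = 2 ^ b' - 2 ^ b`, `c = b' + 1` -/
def pk2 (sh M o c X Y : ℕ) : ℕ :=
  Nat.add (Nat.add (Nat.mod (Nat.shiftRight X sh) M) o)
    (Nat.shiftLeft (Nat.add (Nat.mod (Nat.shiftRight Y sh) M) o) c)

/-- all coordinates -/
def pkL (sh M o c : ℕ) : List ℕ → List ℕ → List ℕ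
  | X :: A, Y :: B => pk2 sh M o c X Y :: pkL sh M o c A B
  | _, _ => []

/-- the list of the digits `k` -/
def pkD (b b' k : ℕ) (A B : List ℕ) : List ℕ :=
  pkL (Nat.mul (Nat.succ b) k) (Nat.pow 2 (Nat.succ b)) (Nat.sub (Nat.pow 2 b') (Nat.pow 2 b)) (Nat.succ b') A B

theorem pk2_eq (b b' k X Y : ℕ) :
    pk2 (Nat.mul (Nat.succ b) k) (Nat.pow 2 (Nat.succ b)) (Nat.sub (Nat.pow 2 b') (Nat.pow 2 b)) (Nat.succ b') X Y =
      (X / (2 ^ (b + 1)) ^ k % 2 ^ (b + 1) + (2 ^ b' - 2 ^ b)) +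
        (Y / (2 ^ (b + 1)) ^ k % 2 ^ (b + 1) + (2 ^ b' - 2 ^ b)) * 2 ^ (b' + 1) := by
  show (X >>> ((b + 1) * k)) % 2 ^ (b + 1) + (2 ^ b' - 2 ^ b) +
    ((Y >>> ((b + 1) * k)) % 2 ^ (b + 1) + (2 ^ b' - 2 ^ b)) <<< (b' + 1) = _
  rw [Nat.shiftRight_eq_div_pow, Nat.shiftRight_eq_div_pow, Nat.shiftLeft_eq, pow_mul]

theorem dig_lt {b b' : ℕ} (h : b ≤ b') (x : ℕ) (hx : x < 2 ^ (b + 1)) : x + (2 ^ b' - 2 ^ b) < 2 ^ (b' + 1) := by
  have h1 : 2 ^ b ≤ 2 ^ b' := Nat.pow_le_pow_right (by norm_num) h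
  have h2 : 2 ^ (b + 1) = 2 * 2 ^ b := by ring
  have h3 : 2 ^ (b' + 1) = 2 * 2 ^ b' := by ring
  omega

theorem dg_pk0 {b b' : ℕ} (h : b ≤ b') (k X Y : ℕ) :
    dg b' (pk2 (Nat.mul (Nat.succ b) k) (Nat.pow 2 (Nat.succ b)) (Nat.sub (Nat.pow 2 b') (Nat.pow 2 b)) (Nat.succ b') X Y) 0
      = dg b X k := by
  rw [pk2_eq]
  have h1 : 2 ^ b ≤ 2 ^ b' := Nat.pow_le_pow_right (by norm_num) h
  have hx := dig_lt h _ (Nat.mod_lt (X / (2 ^ (b + 1)) ^ k) (by positivity : 0 < 2 ^ (b + 1)))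
  unfold dg
  rw [pow_zero, Nat.div_one, Nat.add_mul_mod_self_right, Nat.mod_eq_of_lt hx]
  push_cast [h1]
  ring

theorem dg_pk1 {b b' : ℕ} (h : b ≤ b') (k X Y : ℕ) :
    dg b' (pk2 (Nat.mul (Nat.succ b) k) (Nat.pow 2 (Nat.succ b)) (Nat.sub (Nat.pow 2 b') (Nat.pow 2 b)) (Nat.succ b') X Y) 1
      = dg b Y k := by
  rw [pk2_eq]
  have h1 : 2 ^ b ≤ 2 ^ b' := Nat.pow_le_pow_right (by norm_num) h
  have hx := dig_lt h _ (Nat.mod_lt (X / (2 ^ (b + 1)) ^ k) (by positivity : 0 < 2 ^ (b + 1)))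
  have hy := dig_lt h _ (Nat.mod_lt (Y / (2 ^ (b + 1)) ^ k) (by positivity : 0 < 2 ^ (b + 1)))
  unfold dg
  rw [pow_one, Nat.add_mul_div_right _ _ (by positivity), Nat.div_eq_of_lt hx, zero_add, Nat.mod_eq_of_lt hy]
  push_cast [h1]
  ring

theorem pkL_get (sh M o c : ℕ) (A B : List ℕ) (i : ℕ) (hA : i < A.length) (hB : i < B.length) :
    (pkL sh M o c A B).getD i 0 = pk2 sh M o c (A.getD i 0) (B.getD i 0) := by
  induction A generalizing B i with
  | nil => exact absurd hA (Nat.not_lt_zero _)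
  | cons a A ih =>
    cases B with
    | nil => exact absurd hB (Nat.not_lt_zero _)
    | cons x B =>
      cases i with
      | zero => rfl
      | succ i =>
        have := ih B i (Nat.lt_of_succ_lt_succ hA) (Nat.lt_of_succ_lt_succ hB)
        simpa [pkL] using this

/-- **the digits of the new lists** -/
theorem row_pkD0 {b b' : ℕ} (h : b ≤ b') (k : ℕ) (A B : List ℕ) {i : ℕ} (hA : i < A.length) (hB : i < B.length) :
    row b' (pkD b b' k A B) 0 i = dg b (A.getD i 0) k := by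
  unfold row pkD
  rw [pkL_get _ _ _ _ _ _ _ hA hB, dg_pk0 h]

theorem row_pkD1 {b b' : ℕ} (h : b ≤ b') (k : ℕ) (A B : List ℕ) {i : ℕ} (hA : i < A.length) (hB : i < B.length) :
    row b' (pkD b b' k A B) 1 i = dg b (B.getD i 0) k := by
  unfold row pkD
  rw [pkL_get _ _ _ _ _ _ _ hA hB, dg_pk1 h]

end Helper71.SH
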