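import Pool.Agent.Helper96.SH.D2R
import Pool.Agent.Helper42.SH.HFend
import Pool.Agent.Helper43.CL.Dig
import Pool.Agent.Helper71.SH.LBlk
import Pool.Agent.Helper75.SH.HTR
import Pool.Agent.Helper95.SH.Win

/-!
# Project RC, SHARP, cell engine: the block `d2` of a cell (rows of `(D2)`), and the row of `e_0`

`X`, `Y`: the packed columns of `Re q_l`, `Im q_l` (helper96's `colX`, `colY`); `d2B`: one block per row, weights rounded up;
`d2E`: the error, a natural number; `digR`: exponents of the digit bounds (data, verified by `okDig`); `okD2`: the kernel check;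
`f_D2`: the field `d2` of helper42's `Pieces`; `dig_X`: the bound of the digit `0`, for helper2's block.
-/

set_option autoImplicit false

open MeasureTheory Set Filter Topology

namespace Helper71.SH

open Helper49.Cell
open Helper95.SH (nt pV rV sV CD qk LR)
open Helper25.SH.Mat (Blk row dg)
open Helper43.CL (okDig okDig_real eW LB)
open Helper42.SH (LBB gD2)
open Helper96.SH (AL)
open Helper70.SH (cd Len)
open Pool.Agent.Helper75.SH (WtR)
open Pool.Agent.Helper20.RC (lk)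

/-! ### exponents of the digits (data) -/

/-- ones at the first `m` digits -/
def oneN (b : ℕ) : ℕ → ℕ
  | 0 => 0
  | Nat.succ m => Nat.add 1 (Nat.shiftLeft (oneN b m) (Nat.succ b))

/-- absolute values of all digits, up to one unit -/
def digF (b one low x : ℕ) : ℕ :=
  Nat.xor (Nat.land x low) (Nat.mul (Nat.sub one (Nat.land (Nat.shiftRight x b) one)) (Nat.sub (Nat.pow 2 b) 1))

def orF (b one low : ℕ) : List ℕ → ℕ → ℕ
  | [], acc => acc
  | x :: A, acc => orF b one low A (Nat.lor acc (digF b one low x))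

def exL (b : ℕ) : ℕ → ℕ → List ℕ
  | 0, _ => []
  | Nat.succ m, y => Nat.succ (Nat.log2 (Nat.mod y (Nat.pow 2 (Nat.succ b)))) :: exL b m (Nat.shiftRight y (Nat.succ b))

/-- exponents `r_k`, `k < m`, with all digits `k` of `X` at most `2 ^ r_k` -/
def digR (b m : ℕ) (X : List ℕ) : List ℕ :=
  exL b m (orF b (oneN b m) (Nat.mul (oneN b m) (Nat.sub (Nat.pow 2 b) 1)) X 0)

/-! ### weights, blocks, errors -/

/-- the weight of the row `k`: `10 ^ 9 (2 / ν) α (l ^ 2 - 1)`, `ν = nu / 10 ^ 5`, `α = a / 1000`, `l = 2 k + 2`, rounded up -/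
def wD (nu a k : ℕ) : ℕ :=
  Nat.succ (Nat.div (Nat.mul (Nat.mul 200000000000 a)
    (Nat.sub (Nat.mul (Nat.add (Nat.mul 2 k) 2) (Nat.add (Nat.mul 2 k) 2)) 1)) nu)

/-- **the blocks of the rows** -/
def d2B (b bM nu : ℕ) (X Y : List ℕ) : ℕ → List ℕ → List Blk
  | _, [] => []
  | k, a :: as => .sq true (wD nu a k) 2 (pkD b bM (Nat.add (Nat.mul 2 k) 2) X Y) :: d2B b bM nu X Y (Nat.succ k) as

/-- **the error** -/
def d2E (n e nu : ℕ) (rX rY : List ℕ) : ℕ → List ℕ → ℕ
  | _, [] => 0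
  | k, a :: as =>
    Nat.add (eW n (wD nu a k) e e [rX.getD (Nat.add (Nat.mul 2 k) 2) 0, rY.getD (Nat.add (Nat.mul 2 k) 2) 0]
      [rX.getD (Nat.add (Nat.mul 2 k) 2) 0, rY.getD (Nat.add (Nat.mul 2 k) 2) 0])
      (d2E n e nu rX rY (Nat.succ k) as)

theorem wD_ge {nu a k : ℕ} (hν : 0 < nu) :
    (10 : ℝ) ^ 9 * (2 / ((nu : ℝ) / 100000) * ((a : ℝ) / 1000) * (lk k ^ 2 - 1)) ≤ (wD nu a k : ℕ) := by
  have hν' : (0 : ℝ) < nu := by exact_mod_cast hν
  have e : wD nu a k = 200000000000 * a * ((2 * k + 2) * (2 * k + 2) - 1) / nu + 1 := rfl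
  have h1 := Nat.lt_div_mul_add (a := 200000000000 * a * ((2 * k + 2) * (2 * k + 2) - 1)) hν
  have h2 : 200000000000 * a * ((2 * k + 2) * (2 * k + 2) - 1) ≤ nu * wD nu a k := by
    rw [e]
    nlinarith
  have h3 : ((200000000000 * a * ((2 * k + 2) * (2 * k + 2) - 1) : ℕ) : ℝ) ≤ nu * (wD nu a k : ℕ) := by
    exact_mod_cast h2
  have h4 : (((2 * k + 2) * (2 * k + 2) - 1 : ℕ) : ℝ) = lk k ^ 2 - 1 := by
    have : 1 ≤ (2 * k + 2) * (2 * k + 2) := by nlinarith
    rw [Nat.cast_sub this]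
    unfold lk
    push_cast
    ring
  rw [Nat.cast_mul, h4] at h3
  have h5 : (10 : ℝ) ^ 9 * (2 / ((nu : ℝ) / 100000) * ((a : ℝ) / 1000) * (lk k ^ 2 - 1)) =
      ((200000000000 * a : ℕ) : ℝ) * (lk k ^ 2 - 1) / nu := by
    push_cast
    field_simp
    ring
  rw [h5, div_le_iff₀ hν']
  linarith

/-! ### the rows -/

section

variable {b bM nu n e : ℕ} {X Y rX rY : List ℕ} {Z : ℕ → (ℕ → ℝ) → ℂ}

/-- one row -/
theorem LBB_row {a k : ℕ} (hb : b ≤ bM) (hν : 0 < nu) (hX : X.length = n) (hY : Y.length = n)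
    (oX : okDig b rX X = true) (oY : okDig b rY Y = true) (h1 : 2 * k + 2 < rX.length) (h2 : 2 * k + 2 < rY.length)
    (hre : LR n (2 ^ 56) (fun v => (Z k v).re) (row b (AL b (2 * k + 2) X Y) 0) (e : ℕ))
    (him : LR n (2 ^ 56) (fun v => (Z k v).im) (row b (AL b (2 * k + 2) X Y) 1) (e : ℕ)) :
    LBB bM n (10 ^ 9 * 2 ^ 112)
      (fun v => -((2 / ((nu : ℝ) / 100000) * ((a : ℝ) / 1000) * (lk k ^ 2 - 1)) * ‖Z k v‖ ^ 2))
      [.sq true (wD nu a k) 2 (pkD b bM (2 * k + 2) X Y)]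
      ((eW n (wD nu a k) e e [rX.getD (2 * k + 2) 0, rY.getD (2 * k + 2) 0]
        [rX.getD (2 * k + 2) 0, rY.getD (2 * k + 2) 0] : ℕ) : ℝ) := by
  have hxy : ∀ i < n, ∃ x y : ℕ, X[i]? = some x ∧ Y[i]? = some y := by
    intro i hi
    exact ⟨X[i]'(by omega), Y[i]'(by omega), List.getElem?_eq_getElem _, List.getElem?_eq_getElem _⟩
  have r0 : ∀ i < n, row bM (pkD b bM (2 * k + 2) X Y) 0 i = row b (AL b (2 * k + 2) X Y) 0 i := by
    intro i hi
    obtain ⟨x, y, hx, hy⟩ := hxy i hi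
    rw [row_pkD0 hb _ _ _ (by omega) (by omega), (Helper96.SH.row_AL hx hy).1, Helper96.SH.dz_dg,
      List.getD_eq_getElem?_getD, hx]
    rfl
  have r1 : ∀ i < n, row bM (pkD b bM (2 * k + 2) X Y) 1 i = row b (AL b (2 * k + 2) X Y) 1 i := by
    intro i hi
    obtain ⟨x, y, hx, hy⟩ := hxy i hi
    rw [row_pkD1 hb _ _ _ (by omega) (by omega), (Helper96.SH.row_AL hx hy).2, Helper96.SH.dz_dg,
      List.getD_eq_getElem?_getD, hy]
    rfl
  have p0 : ∀ i < n, row bM (pkD b bM (2 * k + 2) X Y) 0 i = row b X (2 * k + 2) i := fun i hi =>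
    row_pkD0 hb _ _ _ (by omega) (by omega)
  have p1 : ∀ i < n, row bM (pkD b bM (2 * k + 2) X Y) 1 i = row b Y (2 * k + 2) i := fun i hi =>
    row_pkD1 hb _ _ _ (by omega) (by omega)
  refine LBB.one ?_
  have key := Helper43.CL.LB.sqn (b := bM) (N := n) (m := 2) (G := 10 ^ 9) (q := 2 ^ 56)
    (w := fun _ => 2 / ((nu : ℝ) / 100000) * ((a : ℝ) / 1000) * (lk k ^ 2 - 1)) (c := wD nu a k)
    (X := fun c v => if c = 0 then (Z k v).re else (Z k v).im) (A := pkD b bM (2 * k + 2) X Y)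
    (e := fun _ => ((e : ℕ) : ℝ))
    (a := fun c => 2 ^ [rX.getD (2 * k + 2) 0, rY.getD (2 * k + 2) 0].getD c 0)
    (fun c hc => by
      interval_cases c
      · exact LR.congr hre (fun v _ => by simp) (fun i hi => r0 i hi)
      · exact LR.congr him (fun v _ => by simp) (fun i hi => r1 i hi))
    (fun c hc i hi => by
      interval_cases c
      · rw [p0 i hi]
        exact okDig_real oX hX _ h1 i hi
      · rw [p1 i hi]
        exact okDig_real oY hY _ h2 i hi)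
    (fun _ _ => Nat.cast_nonneg _) (fun _ _ => by positivity) (fun _ _ => wD_ge hν)
  have e56 : (10 : ℝ) ^ 9 * (2 ^ 56 * 2 ^ 56) = 10 ^ 9 * 2 ^ 112 := by norm_num
  rw [e56] at key
  refine LB.mono (LB.congr key (fun v _ => ?_) fun v _ => rfl) (fun v _ => le_rfl) (le_of_eq ?_)
  · rw [Finset.sum_range_succ, Finset.sum_range_one, if_pos rfl, if_neg (by norm_num), nsq]
    ring
  · rw [Helper43.CL.eW_eq _ _ _ _ _ _ rfl]
    rfl

/-- **all rows** -/
theorem LBB_rows (hb : b ≤ bM) (hν : 0 < nu) (hX : X.length = n) (hY : Y.length = n)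
    (oX : okDig b rX X = true) (oY : okDig b rY Y = true) : ∀ (as : List ℕ) (k0 : ℕ),
    2 * (k0 + as.length) < rX.length → 2 * (k0 + as.length) < rY.length →
    (∀ k < k0 + as.length, LR n (2 ^ 56) (fun v => (Z k v).re) (row b (AL b (2 * k + 2) X Y) 0) (e : ℕ)) →
    (∀ k < k0 + as.length, LR n (2 ^ 56) (fun v => (Z k v).im) (row b (AL b (2 * k + 2) X Y) 1) (e : ℕ)) →
    LBB bM n (10 ^ 9 * 2 ^ 112)
      (fun v => -∑ j ∈ Finset.range as.length, (2 / ((nu : ℝ) / 100000) * ((as.getD j 0 : ℕ) / 1000) *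
        (lk (k0 + j) ^ 2 - 1)) * ‖Z (k0 + j) v‖ ^ 2)
      (d2B b bM nu X Y k0 as) ((d2E n e nu rX rY k0 as : ℕ) : ℝ) := by
  intro as
  induction as with
  | nil =>
    intro k0 _ _ _ _
    refine LB.congr (LB.mono (LBB.nil bM n (10 ^ 9 * 2 ^ 112)) (fun _ _ => le_rfl) (by simp [d2E])) (fun v _ => ?_)
      fun v _ => rfl
    simp
  | cons a as ih =>
    intro k0 h1 h2 hre him
    rw [List.length_cons] at h1 h2 hre him
    have r := LBB_row (a := a) (k := k0) (e := e) (Z := Z) hb hν hX hY oX oY (by omega) (by omega)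
      (hre k0 (by omega)) (him k0 (by omega))
    have q := ih (k0 + 1) (by omega) (by omega) (fun k hk => hre k (by omega)) (fun k hk => him k (by omega))
    have z := LBB.app r q
    refine LB.mono (LB.congr z (fun v _ => ?_) fun v _ => rfl) (fun v _ => le_of_eq ?_) (le_of_eq ?_)
    · rw [List.length_cons, Finset.sum_range_succ']
      simp only [List.getD_cons_succ, List.getD_cons_zero, Nat.add_zero]
      rw [neg_add, add_comm]
      refine congrArg₂ (· + ·) rfl (congrArg Neg.neg (Finset.sum_congr rfl fun j _ => ?_))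
      rw [show k0 + (j + 1) = k0 + 1 + j by ring]
    · rfl
    · rw [← Nat.cast_add]
      rfl

end

/-! ### the record -/

/-- **the check**: bases, windows, digits of `X` and `Y` -/
def okD2 (b bM l1 : ℕ) (W : WtR) (rX rY X Y : List ℕ) : Bool :=
  bif Nat.ble b bM then
    bif Nat.ble (Nat.mul 2 W.k1) l1 then
      bif Nat.ble (Nat.succ (Nat.mul 2 W.k1)) rX.length then
        bif Nat.ble (Nat.succ (Nat.mul 2 W.k1)) rY.length then
          bif okDig b rX X then okDig b rY Y else false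
        else false
      else false
    else false
  else false

theorem okD2_iff {b bM l1 : ℕ} {W : WtR} {rX rY X Y : List ℕ} (h : okD2 b bM l1 W rX rY X Y = true) :
    b ≤ bM ∧ 2 * W.k1 ≤ l1 ∧ 2 * W.k1 < rX.length ∧ 2 * W.k1 < rY.length ∧ okDig b rX X = true ∧
      okDig b rY Y = true := by
  have hb : ∀ (x y : Bool), (bif x then y else false) = true ↔ x = true ∧ y = true := by
    intro x y; cases x <;> simp
  unfold okD2 at h
  rw [hb, hb, hb, hb, hb] at h
  obtain ⟨h1, h2, h3, h4, h5, h6⟩ := h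
  exact ⟨Nat.le_of_ble_eq_true h1, Nat.le_of_ble_eq_true h2, Nat.le_of_ble_eq_true h3, Nat.le_of_ble_eq_true h4, h5, h6⟩

/-- the bound of the digit `0` of `X` -/
theorem dig_X {b bM l1 n : ℕ} {W : WtR} {rX rY X Y : List ℕ} (hX : X.length = n)
    (h : okD2 b bM l1 W rX rY X Y = true) : ∀ i < n, |(row b X 0 i : ℝ)| ≤ 2 ^ rX.getD 0 0 := by
  obtain ⟨-, -, h3, -, h5, -⟩ := okD2_iff h
  exact fun i hi => okDig_real h5 hX 0 (by omega) i hi

/-- **THE FIELD `d2` OF A RECORD** -/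
theorem f_D2 {R : Rec} {C : Crt} (h : R.ok C = true) {K0 : ℕ} (len : Len R K0) (s0 : ℕ) {K H b bM l1 e : ℕ}
    {W : WtR} {rX rY X Y : List ℕ} (hX : X.length = nt K (2 * H)) (hY : Y.length = nt K (2 * H))
    (ho : okD2 b bM l1 W rX rY X Y = true)
    (hr : ∀ k : ℕ, 2 * k + 2 ≤ l1 →
      LR (nt K (2 * H)) (2 ^ 56)
        (fun v => (qk (cd R h len s0) (max K (2 * H)) (pV K (2 * H) v) (rV K (2 * H) v) (sV K v) k).re)
        (row b (AL b (2 * k + 2) X Y) 0) (e : ℕ) ∧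
      LR (nt K (2 * H)) (2 ^ 56)
        (fun v => (qk (cd R h len s0) (max K (2 * H)) (pV K (2 * H) v) (rV K (2 * H) v) (sV K v) k).im)
        (row b (AL b (2 * k + 2) X Y) 1) (e : ℕ)) :
    LBB bM (nt K (2 * H)) (10 ^ 9 * 2 ^ 112) (fun v => gD2 (cd R h len s0) K H (max K (2 * H)) v W.k1 W.alf)
      (d2B b bM R.nu.toNat X Y 0 W.al) ((d2E (nt K (2 * H)) e R.nu.toNat rX rY 0 W.al : ℕ) : ℝ) := by
  obtain ⟨k1, k2, k3, k4, k5, k6⟩ := okD2_iff ho
  have hν0 : (0 : ℝ) < (R.nu : ℝ) / 100000 := (Rec.ok_sound h).nu0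
  have hν1 : 0 < R.nu := by
    by_contra hc
    have h1 : (R.nu : ℝ) ≤ 0 := by exact_mod_cast not_lt.1 hc
    have h2 : (R.nu : ℝ) / 100000 ≤ 0 := div_nonpos_of_nonpos_of_nonneg h1 (by norm_num)
    linarith
  have hν2 : 0 < R.nu.toNat := by omega
  have hν3 : ((R.nu.toNat : ℕ) : ℝ) = (R.nu : ℝ) := by
    have h1 : ((R.nu.toNat : ℕ) : ℤ) = R.nu := Int.toNat_of_nonneg hν1.le
    have h2 : (((R.nu.toNat : ℕ) : ℤ) : ℝ) = (R.nu : ℝ) := by rw [h1]
    exact_mod_cast h2
  have hl : W.al.length = W.k1 := rfl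
  have key := LBB_rows (b := b) (bM := bM) (nu := R.nu.toNat) (n := nt K (2 * H)) (e := e) (X := X) (Y := Y)
    (rX := rX) (rY := rY)
    (Z := fun k v => qk (cd R h len s0) (max K (2 * H)) (pV K (2 * H) v) (rV K (2 * H) v) (sV K v) k)
    k1 hν2 hX hY k5 k6 W.al 0 (by rw [hl]; omega) (by rw [hl]; omega)
    (fun k hk => (hr k (by rw [hl] at hk; omega)).1) (fun k hk => (hr k (by rw [hl] at hk; omega)).2)
  refine LB.congr key (fun v _ => ?_) fun v _ => rfl
  have hnu : (cd R h len s0).P.nu = (R.nu : ℝ) / 100000 := rfl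
  unfold gD2
  rw [hnu, hν3, hl, Finset.mul_sum]
  refine congrArg Neg.neg (Finset.sum_congr rfl fun j hj => ?_)
  have hj' : j < W.al.length := Finset.mem_range.1 hj
  have e1 : W.alf j = ((W.al.getD j 0 : ℕ) : ℝ) / 1000 := by
    unfold WtR.alf
    rw [List.getD_eq_getElem _ _ hj', List.getD_eq_getElem _ _ hj']
  rw [e1, Nat.zero_add]
  ring

end Helper71.SH
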