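import Pool.Agent.Helper95.SH.Cell
import Pool.Agent.Helper96.SH.Row

/-!
# Project RC, SHARP, cell engine: the `H` part of the rows of (D2) in the coordinates

`hcol K L e1 e2 D S i`: the entries `(l, re, im)` of the coordinate `i` in `H_l`, integers at the scale `2^S`, for
`η = (e1 + i e2)/D`, no `a0`. `hcolE`: the same entries with the exact numbers. `HkA_hcol`: the identity.
-/

set_option autoImplicit false

namespace Helper71.SH

open Helper95.SH
open Helper95.RC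
open Helper56.RC (fc)
open Helper49.Sharp (Par)
open Helper96.SH (Ue iU xU)
open Pool.Agent.Helper20.RC (lk lk_ge lk_sq)

/-! ### computable part -/

/-- the frequency of the coordinate `j ≥ 1` of a hermitian array -/
def hN (j : ℕ) : ℕ := 2 * ((j + 1) / 2)

/-- numerator of `c x w`, `x = 1, i` (`im`), `c = -1` (`p`), `i l / 2` (`r`, `isr`), `w = w1 + i w2` -/
def gNum (isr im : Bool) (l2 w1 w2 : ℤ) : ℤ × ℤ :=
  match isr, im with
  | false, false => (-w1, -w2)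
  | false, true => (w2, -w1)
  | true, false => (-(l2 * w2), l2 * w1)
  | true, true => (-(l2 * w1), -(l2 * w2))

/-- one entry: position `l`, floor of `2^S c x w / (D (l² - 1))` -/
def hent (isr im : Bool) (D S l : ℕ) (w1 w2 : ℤ) : ℕ × ℤ × ℤ :=
  (l, ((2 ^ S : ℕ) : ℤ) * (gNum isr im ((l / 2 : ℕ) : ℤ) w1 w2).1 / ((D * (l * l - 1) : ℕ) : ℤ),
    ((2 ^ S : ℕ) : ℤ) * (gNum isr im ((l / 2 : ℕ) : ℤ) w1 w2).2 / ((D * (l * l - 1) : ℕ) : ℤ))

/-- the positions of the coordinate `j` of a hermitian array with the multipliers `w = 1, η, conj η` (numerators) -/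
def hpos (e1 e2 : ℤ) (D j : ℕ) : List (ℕ × ℤ × ℤ) :=
  if j = 0 then []
  else if 6 ≤ hN j then [(hN j, (D : ℤ), 0), (hN j + 2, e1, e2), (hN j - 2, e1, -e2)]
  else if 4 ≤ hN j then [(hN j, (D : ℤ), 0), (hN j + 2, e1, e2)]
  else [(hN j + 2, e1, e2)]

/-- the entries of the coordinate `j` of a hermitian array -/
def hlist (isr : Bool) (e1 e2 : ℤ) (D S j : ℕ) : List (ℕ × ℤ × ℤ) :=
  (hpos e1 e2 D j).map fun t => hent isr (j % 2 == 0) D S t.1 t.2.1 t.2.2

/-- **the entries of the coordinate `i`** -/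
def hcol (K L : ℕ) (e1 e2 : ℤ) (D S i : ℕ) : List (ℕ × ℤ × ℤ) :=
  if i < bp K then []
  else if i < br K L then hlist false e1 e2 D S (i - bp K)
  else if i < nt K L then hlist true e1 e2 D S (i - br K L)
  else []

/-! ### exact numbers -/

/-- `w = (w1 + i w2)/D` -/
noncomputable def hw (D : ℕ) (w1 w2 : ℤ) : ℂ := ((w1 : ℂ) + Complex.I * (w2 : ℂ)) / (D : ℂ)
/-- `x = 1, i` -/
noncomputable def hx (im : Bool) : ℂ := if im then Complex.I else 1
/-- the factor of the row `l` -/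
noncomputable def hf (isr : Bool) (l : ℕ) : ℂ := (if isr then Complex.I * ((l : ℂ) / 2) else -1) / ((l : ℂ) ^ 2 - 1)

/-- the exact entry -/
noncomputable def hcoef (isr im : Bool) (D l : ℕ) (w1 w2 : ℤ) : ℂ := hf isr l * (hx im * hw D w1 w2)

/-- an entry with the exact number -/
noncomputable def hentE (isr im : Bool) (D S : ℕ) (t : ℕ × ℤ × ℤ) : Ue :=
  ⟨t.1, (hent isr im D S t.1 t.2.1 t.2.2).2.1, (hent isr im D S t.1 t.2.1 t.2.2).2.2, hcoef isr im D t.1 t.2.1 t.2.2⟩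

noncomputable def hlistE (isr : Bool) (e1 e2 : ℤ) (D S j : ℕ) : List Ue :=
  (hpos e1 e2 D j).map fun t => hentE isr (j % 2 == 0) D S t

/-- **the entries of the coordinate `i` with the exact numbers** -/
noncomputable def hU (K L : ℕ) (e1 e2 : ℤ) (D S i : ℕ) : List Ue :=
  if i < bp K then []
  else if i < br K L then hlistE false e1 e2 D S (i - bp K)
  else if i < nt K L then hlistE true e1 e2 D S (i - br K L)
  else []

theorem hlistE_map (isr : Bool) (e1 e2 : ℤ) (D S j : ℕ) :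
    (hlistE isr e1 e2 D S j).map iU = hlist isr e1 e2 D S j := by
  unfold hlistE hlist
  rw [List.map_map]
  rfl

theorem hU_map (K L : ℕ) (e1 e2 : ℤ) (D S i : ℕ) : (hU K L e1 e2 D S i).map iU = hcol K L e1 e2 D S i := by
  unfold hU hcol
  split_ifs
  · rfl
  · exact hlistE_map _ _ _ _ _ _
  · exact hlistE_map _ _ _ _ _ _
  · rfl

theorem hpos_len (e1 e2 : ℤ) (D j : ℕ) : (hpos e1 e2 D j).length ≤ 3 := by
  unfold hpos
  split_ifs <;> simp

theorem hU_len (K L : ℕ) (e1 e2 : ℤ) (D S i : ℕ) : (hU K L e1 e2 D S i).length ≤ 3 := by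
  unfold hU hlistE
  split_ifs
  · simp
  · rw [List.length_map]; exact hpos_len _ _ _ _
  · rw [List.length_map]; exact hpos_len _ _ _ _
  · simp

/-! ### errors -/

theorem gNum_eq (isr im : Bool) (l2 w1 w2 : ℤ) :
    ((gNum isr im l2 w1 w2).1 : ℂ) + Complex.I * ((gNum isr im l2 w1 w2).2 : ℂ) =
      (if isr then Complex.I * (l2 : ℂ) else -1) * (hx im * ((w1 : ℂ) + Complex.I * (w2 : ℂ))) := by
  have hI : Complex.I * Complex.I = -1 := Complex.I_mul_I
  cases isr <;> cases im <;> simp [gNum, hx] <;> ring_nf <;> simp [Complex.I_sq] <;> ring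

theorem fl_err (a : ℤ) {q : ℕ} (hq : 0 < q) : |((a / (q : ℤ) : ℤ) : ℝ) - (a : ℝ) / (q : ℝ)| ≤ 1 := by
  have h1 : (q : ℤ) * (a / (q : ℤ)) + a % (q : ℤ) = a := Int.mul_ediv_add_emod a q
  have h2 : 0 ≤ a % (q : ℤ) := Int.emod_nonneg a (by omega)
  have h3 : a % (q : ℤ) < (q : ℤ) := Int.emod_lt_of_pos a (by omega)
  have hq' : (0 : ℝ) < q := by exact_mod_cast hq
  have e : (a : ℝ) / (q : ℝ) = ((a / (q : ℤ) : ℤ) : ℝ) + ((a % (q : ℤ) : ℤ) : ℝ) / q := by
    rw [eq_comm, ← sub_eq_zero]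
    have h4 : ((q : ℤ) : ℝ) * ((a / (q : ℤ) : ℤ) : ℝ) + ((a % (q : ℤ) : ℤ) : ℝ) = (a : ℝ) := by exact_mod_cast h1
    rw [Int.cast_natCast] at h4
    field_simp
    linarith
  have h5 : 0 ≤ ((a % (q : ℤ) : ℤ) : ℝ) / q := div_nonneg (by exact_mod_cast h2) hq'.le
  have h6 : ((a % (q : ℤ) : ℤ) : ℝ) / q ≤ 1 := by
    rw [div_le_one hq']
    exact_mod_cast h3.le
  rw [e, abs_le]
  constructor <;> linarith

theorem hpos_mem {e1 e2 : ℤ} {D j : ℕ} {t : ℕ × ℤ × ℤ} (ht : t ∈ hpos e1 e2 D j) :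
    4 ≤ t.1 ∧ Even t.1 ∧ t.1 ≤ hN j + 2 ∧ 1 ≤ j ∧
      (t.2 = ((D : ℤ), 0) ∨ t.2 = (e1, e2) ∨ t.2 = (e1, -e2)) := by
  have he : Even (hN j) := ⟨(j + 1) / 2, by unfold hN; ring⟩
  have h2 : 1 ≤ j → 2 ≤ hN j := fun h => by unfold hN; omega
  unfold hpos at ht
  split_ifs at ht with h0 h6 h4
  · simp at ht
  · simp only [List.mem_cons, List.not_mem_nil, or_false] at ht
    rcases ht with rfl | rfl | rfl
    · exact ⟨by omega, he, by omega, by omega, Or.inl rfl⟩
    · exact ⟨by omega, he.add (by decide), by omega, by omega, Or.inr (Or.inl rfl)⟩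
    · exact ⟨by omega, (Nat.even_sub (by omega)).2 (iff_of_true he (by decide)), by omega, by omega,
        Or.inr (Or.inr rfl)⟩
  · simp only [List.mem_cons, List.not_mem_nil, or_false] at ht
    rcases ht with rfl | rfl
    · exact ⟨by omega, he, by omega, by omega, Or.inl rfl⟩
    · exact ⟨by omega, he.add (by decide), by omega, by omega, Or.inr (Or.inl rfl)⟩
  · simp only [List.mem_cons, List.not_mem_nil, or_false] at ht
    subst ht
    have := h2 (by omega)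
    exact ⟨by omega, he.add (by decide), by omega, by omega, Or.inr (Or.inl rfl)⟩

theorem hcoef_eq (isr im : Bool) {D l : ℕ} (hD : 0 < D) (hl : 4 ≤ l) (he : Even l) (w1 w2 : ℤ) :
    hcoef isr im D l w1 w2 =
      (((gNum isr im ((l / 2 : ℕ) : ℤ) w1 w2).1 : ℂ) + Complex.I * ((gNum isr im ((l / 2 : ℕ) : ℤ) w1 w2).2 : ℂ)) /
        ((D * (l * l - 1) : ℕ) : ℂ) := by
  rw [gNum_eq]
  unfold hcoef hf hw
  obtain ⟨m, hm⟩ := he
  have e1 : (((l / 2 : ℕ) : ℤ) : ℂ) = (l : ℂ) / 2 := by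
    have : l / 2 = m := by omega
    rw [this, hm]
    push_cast
    ring
  have e2 : ((D * (l * l - 1) : ℕ) : ℂ) = (D : ℂ) * ((l : ℂ) ^ 2 - 1) := by
    have : 1 ≤ l * l := by nlinarith
    rw [Nat.cast_mul, Nat.cast_sub this]
    push_cast
    ring
  have h1 : (D : ℂ) ≠ 0 := by exact_mod_cast hD.ne'
  have h2 : (l : ℂ) ^ 2 - 1 ≠ 0 := by
    have : (l : ℂ) ^ 2 - 1 = (((l : ℝ) ^ 2 - 1 : ℝ) : ℂ) := by push_cast; rfl
    rw [this]
    have h4 : (4 : ℝ) ≤ l := by exact_mod_cast hl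
    exact_mod_cast (by nlinarith : (l : ℝ) ^ 2 - 1 ≠ 0)
  rw [e1, e2]
  field_simp

theorem hent_err (isr im : Bool) {D l : ℕ} (hD : 0 < D) (hl : 4 ≤ l) (he : Even l) (S : ℕ) (w1 w2 : ℤ) :
    ‖((((hent isr im D S l w1 w2).2.1 : ℤ) : ℂ) + Complex.I * (((hent isr im D S l w1 w2).2.2 : ℤ) : ℂ))
      - 2 ^ S * hcoef isr im D l w1 w2‖ ≤ 2 := by
  rw [hcoef_eq isr im hD hl he]
  set g := gNum isr im ((l / 2 : ℕ) : ℤ) w1 w2 with hg
  set A := D * (l * l - 1) with hA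
  have hA0 : 0 < A := Nat.mul_pos hD (by have : 1 < l * l := by nlinarith
                                         omega)
  have e1 := fl_err (((2 ^ S : ℕ) : ℤ) * g.1) hA0
  have e2 := fl_err (((2 ^ S : ℕ) : ℤ) * g.2) hA0
  have e3 : (hent isr im D S l w1 w2).2.1 = ((2 ^ S : ℕ) : ℤ) * g.1 / (A : ℤ) := rfl
  have e4 : (hent isr im D S l w1 w2).2.2 = ((2 ^ S : ℕ) : ℤ) * g.2 / (A : ℤ) := rfl
  rw [e3, e4]
  set x : ℝ := ((((2 ^ S : ℕ) : ℤ) * g.1 / (A : ℤ) : ℤ) : ℝ) - ((((2 ^ S : ℕ) : ℤ) * g.1 : ℤ) : ℝ) / (A : ℝ) with hx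
  set y : ℝ := ((((2 ^ S : ℕ) : ℤ) * g.2 / (A : ℤ) : ℤ) : ℝ) - ((((2 ^ S : ℕ) : ℤ) * g.2 : ℤ) : ℝ) / (A : ℝ) with hy
  have e5 : ((((((2 ^ S : ℕ) : ℤ) * g.1 / (A : ℤ) : ℤ)) : ℂ) + Complex.I * ((((2 ^ S : ℕ) : ℤ) * g.2 / (A : ℤ) : ℤ) : ℂ))
      - 2 ^ S * (((g.1 : ℂ) + Complex.I * (g.2 : ℂ)) / (A : ℂ)) = (x : ℂ) + Complex.I * (y : ℂ) := by
    rw [hx, hy]
    push_cast
    ring
  rw [e5]
  refine (Complex.norm_le_abs_re_add_abs_im _).trans ?_
  have e6 : ((x : ℂ) + Complex.I * (y : ℂ)).re = x := by simp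
  have e7 : ((x : ℂ) + Complex.I * (y : ℂ)).im = y := by simp
  rw [e6, e7]
  linarith

theorem hx_norm (im : Bool) : ‖hx im‖ = 1 := by
  unfold hx
  split_ifs
  · exact Complex.norm_I
  · exact norm_one

theorem hw_one {D : ℕ} (hD : 0 < D) : hw D (D : ℤ) 0 = 1 := by
  unfold hw
  have h1 : (D : ℂ) ≠ 0 := by exact_mod_cast hD.ne'
  push_cast
  rw [mul_zero, add_zero, div_self h1]

theorem hw_conj (D : ℕ) (e1 e2 : ℤ) : hw D e1 (-e2) = (starRingEnd ℂ) (hw D e1 e2) := by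
  unfold hw
  rw [map_div₀, map_add, map_mul, Complex.conj_I, map_intCast, map_intCast, map_natCast]
  push_cast
  ring

theorem hf_norm (isr : Bool) {l : ℕ} (hl : 4 ≤ l) : ‖hf isr l‖ ≤ 1 := by
  have h4 : (4 : ℝ) ≤ l := by exact_mod_cast hl
  have e0 : (l : ℂ) ^ 2 - 1 = (((l : ℝ) ^ 2 - 1 : ℝ) : ℂ) := by push_cast; rfl
  have hp : (0 : ℝ) < (l : ℝ) ^ 2 - 1 := by nlinarith
  have e1 : ‖(l : ℂ) ^ 2 - 1‖ = (l : ℝ) ^ 2 - 1 := by
    rw [e0, Complex.norm_real, Real.norm_eq_abs, abs_of_pos hp]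
  unfold hf
  rw [norm_div, e1, div_le_one hp]
  split_ifs
  · rw [norm_mul, Complex.norm_I, one_mul, norm_div, Complex.norm_natCast, Complex.norm_ofNat]
    nlinarith
  · rw [norm_neg, norm_one]
    nlinarith

/-- the entries are small and have small errors -/
theorem hU_ok {K L : ℕ} (hL : Even L) {e1 e2 : ℤ} {D : ℕ} (hD : 0 < D) (hη : ‖hw D e1 e2‖ ≤ 1) (S i : ℕ) (u : Ue)
    (hu : u ∈ hU K L e1 e2 D S i) :
    4 ≤ u.k ∧ u.k ≤ L + 2 ∧ ‖((u.re : ℂ) + Complex.I * (u.im : ℂ)) - 2 ^ S * u.h‖ ≤ 2 ∧ ‖u.h‖ ≤ 1 := by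
  have key : ∀ (isr : Bool) (j : ℕ), j ≤ L → u ∈ hlistE isr e1 e2 D S j →
      4 ≤ u.k ∧ u.k ≤ L + 2 ∧ ‖((u.re : ℂ) + Complex.I * (u.im : ℂ)) - 2 ^ S * u.h‖ ≤ 2 ∧ ‖u.h‖ ≤ 1 := by
    intro isr j hj hu
    unfold hlistE at hu
    rw [List.mem_map] at hu
    obtain ⟨t, ht, rfl⟩ := hu
    obtain ⟨h1, h2, h3, h4, h5⟩ := hpos_mem ht
    refine ⟨h1, ?_, hent_err isr _ hD h1 h2 S _ _, ?_⟩
    · show t.1 ≤ L + 2
      obtain ⟨m, hm⟩ := hL
      unfold hN at h3
      omega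
    · show ‖hcoef isr (j % 2 == 0) D t.1 t.2.1 t.2.2‖ ≤ 1
      unfold hcoef
      rw [norm_mul, norm_mul, hx_norm, one_mul]
      have hw1 : ‖hw D t.2.1 t.2.2‖ ≤ 1 := by
        rcases h5 with h | h | h
        · rw [h, hw_one hD, norm_one]
        · rw [h]; exact hη
        · rw [h, hw_conj, Complex.norm_conj]; exact hη
      exact mul_le_one₀ (hf_norm isr h1) (norm_nonneg _) hw1
  unfold hU at hu
  unfold br nt at hu
  split_ifs at hu with c1 c2 c3
  · simp at hu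
  · exact key false _ (by omega) hu
  · exact key true _ (by omega) hu
  · simp at hu

theorem hU_okU {K L : ℕ} (hL : Even L) {e1 e2 : ℤ} {D : ℕ} (hD : 0 < D) (hη : ‖hw D e1 e2‖ ≤ 1) {s s' l1 : ℕ}
    (hl : L + 2 ≤ l1) (i : ℕ) (u : Ue) (hu : u ∈ hU K L e1 e2 D (s + s') i) : u.ok s s' l1 1 := by
  obtain ⟨_, h2, h3, h4⟩ := hU_ok hL hD hη (s + s') i u hu
  exact ⟨h2.trans hl, h3, h4⟩

/-! ### the identity -/

/-- the multiplier of the frequency `n` in the row `l` -/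
noncomputable def mul (η : ℂ) (l n : ℕ) : ℂ :=
  (if l = n then 1 else 0) + (if l = n + 2 then η else 0) + (if l + 2 = n then (starRingEnd ℂ) η else 0)

theorem hlistE_sum (isr : Bool) {e1 e2 : ℤ} {D : ℕ} (hD : 0 < D) (S j : ℕ) {l : ℕ} (hl : 4 ≤ l) :
    ((hlistE isr e1 e2 D S j).map (xU l)).sum =
      if j = 0 then 0 else hf isr l * (hx (j % 2 == 0) * mul (hw D e1 e2) l (hN j)) := by
  have hx1 : ∀ t : ℕ × ℤ × ℤ, xU l (hentE isr (j % 2 == 0) D S t) =
      if l = t.1 then hf isr l * (hx (j % 2 == 0) * hw D t.2.1 t.2.2) else 0 := by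
    intro t
    unfold xU hentE hcoef
    by_cases h : l = t.1
    · rw [if_pos h, if_pos h, h]
    · rw [if_neg h, if_neg h]
  unfold hlistE
  rw [List.map_map]
  have hm : (xU l ∘ fun t => hentE isr (j % 2 == 0) D S t) =
      fun t : ℕ × ℤ × ℤ => if l = t.1 then hf isr l * (hx (j % 2 == 0) * hw D t.2.1 t.2.2) else 0 := by
    funext t
    exact hx1 t
  rw [hm]
  unfold hpos mul
  by_cases h0 : j = 0
  · rw [if_pos h0, if_pos h0]; rfl
  rw [if_neg h0, if_neg h0]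
  have h2 : 2 ≤ hN j := by unfold hN; omega
  have he : hN j % 2 = 0 := by unfold hN; omega
  by_cases h6 : 6 ≤ hN j
  · rw [if_pos h6]
    simp only [List.map_cons, List.map_nil, List.sum_cons, List.sum_nil]
    rw [hw_one hD, hw_conj]
    by_cases a1 : l = hN j
    · rw [if_pos a1, if_neg (by omega), if_neg (by omega), if_pos a1, if_neg (by omega), if_neg (by omega)]
      ring
    · by_cases a2 : l = hN j + 2
      · rw [if_neg a1, if_pos a2, if_neg (by omega), if_neg a1, if_pos a2, if_neg (by omega)]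
        ring
      · by_cases a3 : l + 2 = hN j
        · rw [if_neg a1, if_neg a2, if_pos (by omega), if_neg a1, if_neg a2, if_pos a3]
          ring
        · rw [if_neg a1, if_neg a2, if_neg (by omega), if_neg a1, if_neg a2, if_neg a3]
          ring
  · rw [if_neg h6]
    by_cases h4 : 4 ≤ hN j
    · rw [if_pos h4]
      simp only [List.map_cons, List.map_nil, List.sum_cons, List.sum_nil]
      rw [hw_one hD, if_neg (show ¬ l + 2 = hN j by omega)]
      by_cases a1 : l = hN j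
      · rw [if_pos a1, if_neg (by omega), if_pos a1, if_neg (by omega)]
        ring
      · by_cases a2 : l = hN j + 2
        · rw [if_neg a1, if_pos a2, if_neg a1, if_pos a2]
          ring
        · rw [if_neg a1, if_neg a2, if_neg a1, if_neg a2]
          ring
    · rw [if_neg h4]
      simp only [List.map_cons, List.map_nil, List.sum_cons, List.sum_nil]
      rw [if_neg (show ¬ l + 2 = hN j by omega), if_neg (show ¬ l = hN j by omega)]
      by_cases a2 : l = hN j + 2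
      · rw [if_pos a2, if_pos a2]
        ring
      · rw [if_neg a2, if_neg a2]
        ring

theorem hlistE_sum2 (isr : Bool) {e1 e2 : ℤ} {D : ℕ} (S j : ℕ) : ((hlistE isr e1 e2 D S j).map (xU 2)).sum = 0 := by
  refine List.sum_eq_zero fun x hx => ?_
  rw [List.mem_map] at hx
  obtain ⟨u, hu, rfl⟩ := hx
  unfold hlistE at hu
  rw [List.mem_map] at hu
  obtain ⟨t, ht, rfl⟩ := hu
  have := (hpos_mem ht).1
  show (if 2 = t.1 then _ else _) = _
  rw [if_neg (by omega)]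

/-- pairs of real coordinates -/
theorem pair_sum (v : ℕ → ℝ) (φ : ℕ → ℂ) (M : ℕ) :
    ∑ j ∈ Finset.range (2 * M + 1), (v j : ℂ) * (if j = 0 then 0 else hx (j % 2 == 0) * φ (hN j)) =
      ∑ m ∈ Finset.range M, ((v (2 * m + 1) : ℂ) + Complex.I * (v (2 * m + 2) : ℂ)) * φ (2 * m + 2) := by
  induction M with
  | zero => simp
  | succ M ih =>
    rw [show 2 * (M + 1) + 1 = 2 * M + 1 + 1 + 1 by ring, Finset.sum_range_succ, Finset.sum_range_succ, ih,
      Finset.sum_range_succ]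
    have a1 : hN (2 * M + 1) = 2 * M + 2 := by unfold hN; omega
    have a2 : hN (2 * M + 1 + 1) = 2 * M + 2 := by unfold hN; omega
    have b1 : ((2 * M + 1) % 2 == 0) = false := by
      rw [beq_eq_false_iff_ne]; omega
    have b2 : ((2 * M + 1 + 1) % 2 == 0) = true := by
      rw [beq_iff_eq]; omega
    rw [if_neg (by omega), if_neg (by omega), a1, a2, b1, b2]
    unfold hx
    rw [if_neg (by decide), if_pos rfl]
    ring

theorem hV_pos {L base : ℕ} {v : ℕ → ℝ} {m : ℕ} (hm : 2 * m + 2 ≤ L) :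
    hV L base v (2 * (m : ℤ) + 2) = (v (base + (2 * m + 1)) : ℂ) + Complex.I * (v (base + (2 * m + 2)) : ℂ) := by
  unfold hV
  rw [if_neg (by
    push Not
    refine ⟨⟨(m : ℤ) + 1, by ring⟩, ?_⟩
    rw [Finset.mem_Icc]
    omega), if_neg (by omega), if_pos (by omega)]
  have h1 : (2 * (m : ℤ) + 2).toNat = 2 * m + 2 := by omega
  rw [h1]
  congr 3

/-- the band operator in the coordinates -/
theorem wm_hV {L base : ℕ} (hL : Even L) (v : ℕ → ℝ) (η : ℂ) (k : ℕ) :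
    ∑ j ∈ Finset.range (L + 1), (v (base + j) : ℂ) *
        (if j = 0 then 0 else hx (j % 2 == 0) * mul η (2 * (k + 1) + 2) (hN j)) =
      wm η (hV L base v) (2 * ((k + 1 : ℕ) : ℤ) + 2) := by
  obtain ⟨M, hM⟩ := hL
  have hM2 : L = 2 * M := by omega
  rw [hM2, pair_sum (fun j => v (base + j)) (mul η (2 * (k + 1) + 2)) M]
  have e : ∀ m ∈ Finset.range M, ((v (base + (2 * m + 1)) : ℂ) + Complex.I * (v (base + (2 * m + 2)) : ℂ)) *
      mul η (2 * (k + 1) + 2) (2 * m + 2) =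
      (if k + 1 = m then hV (2 * M) base v (2 * (m : ℤ) + 2) else 0)
      + η * (if k = m then hV (2 * M) base v (2 * (m : ℤ) + 2) else 0)
      + (starRingEnd ℂ) η * (if k + 2 = m then hV (2 * M) base v (2 * (m : ℤ) + 2) else 0) := by
    intro m hm
    rw [Finset.mem_range] at hm
    rw [← hV_pos (show 2 * m + 2 ≤ 2 * M by omega)]
    unfold mul
    by_cases a1 : k + 1 = m
    · rw [if_pos (by omega), if_neg (by omega), if_neg (by omega), if_pos a1, if_neg (by omega), if_neg (by omega)]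
      ring
    · by_cases a2 : k = m
      · rw [if_neg (by omega), if_pos (by omega), if_neg (by omega), if_neg a1, if_pos a2, if_neg (by omega)]
        ring
      · by_cases a3 : k + 2 = m
        · rw [if_neg (by omega), if_neg (by omega), if_pos (by omega), if_neg a1, if_neg a2, if_pos a3]
          ring
        · rw [if_neg (by omega), if_neg (by omega), if_neg (by omega), if_neg a1, if_neg a2, if_neg a3]
          ring
  have g : ∀ a : ℕ, ∑ m ∈ Finset.range M, (if a = m then hV (2 * M) base v (2 * (m : ℤ) + 2) else 0) =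
      hV (2 * M) base v (2 * (a : ℤ) + 2) := by
    intro a
    rw [Finset.sum_ite_eq]
    by_cases h : a ∈ Finset.range M
    · rw [if_pos h]
    · rw [if_neg h, hV_sup (2 * M) base v _ (by rw [Finset.mem_Icc]; rw [Finset.mem_range] at h; omega)]
  rw [Finset.sum_congr rfl e, Finset.sum_add_distrib, Finset.sum_add_distrib, ← Finset.mul_sum, ← Finset.mul_sum, g, g, g]
  unfold wm
  have i1 : 2 * ((k + 1 : ℕ) : ℤ) + 2 - 2 = 2 * (k : ℤ) + 2 := by push_cast; ring
  have i2 : 2 * ((k + 1 : ℕ) : ℤ) + 2 + 2 = 2 * ((k + 2 : ℕ) : ℤ) + 2 := by push_cast; ring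
  rw [i1, i2]

/-- the rows `H_l` without `a0` -/
theorem HkA_row {P : Par} (h0 : ∀ n, fc P.a0 n = 0) {p r : ℤ → ℂ} (hp : ∀ n, p (-n) = (starRingEnd ℂ) (p n))
    (hr : ∀ n, r (-n) = (starRingEnd ℂ) (r n)) (k : ℕ) :
    HkA P p r (k + 1) = hf false (2 * (k + 1) + 2) * wm P.eta p (2 * ((k + 1 : ℕ) : ℤ) + 2)
      + hf true (2 * (k + 1) + 2) * wm P.eta r (2 * ((k + 1 : ℕ) : ℤ) + 2) := by
  have wh : ∀ f : ℤ → ℂ, (∀ n, f (-n) = (starRingEnd ℂ) (f n)) → ∀ n : ℤ,
      (starRingEnd ℂ) (wm P.eta f (-n)) = wm P.eta f n := by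
    intro f hf n
    unfold wm
    rw [map_add, map_add, map_mul, map_mul, Complex.conj_conj, hf n, Complex.conj_conj,
      show -n - 2 = -(n + 2) by ring, show -n + 2 = -(n - 2) by ring, hf, hf, Complex.conj_conj, Complex.conj_conj]
    ring
  set n : ℤ := 2 * ((k + 1 : ℕ) : ℤ) + 2 with hn
  have hn2 : ¬ (n = 2 ∨ n = -2) := by rw [hn]; omega
  have hn3 : ¬ (-n = 2 ∨ -n = -2) := by omega
  have d1 : dlA P p r n = wm P.eta p n + Complex.I / 2 * wm P.eta r n := by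
    unfold dlA alA
    rw [if_neg hn2, h0, one_mul, sub_zero]
  have d2 : (starRingEnd ℂ) (dlA P p r (-n)) = wm P.eta p n - Complex.I / 2 * wm P.eta r n := by
    unfold dlA alA
    rw [if_neg hn3, h0, one_mul, sub_zero, map_add, map_mul, wh p hp, wh r hr, map_div₀, Complex.conj_I,
      Complex.conj_ofNat]
    ring
  have hk : (lk (k + 1) : ℂ) = (n : ℂ) := by
    rw [hn]; unfold lk; push_cast; ring
  have hl : ((2 * (k + 1) + 2 : ℕ) : ℂ) = (n : ℂ) := by rw [hn]; push_cast; ring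
  unfold HkA hf
  rw [d1, d2, hk, hl, if_neg (by decide), if_pos rfl]
  have h1 : (n : ℂ) + 1 ≠ 0 := by
    have : (n : ℂ) + 1 = ((n + 1 : ℤ) : ℂ) := by push_cast; ring
    rw [this]
    exact_mod_cast (by omega : n + 1 ≠ 0)
  have h2 : (n : ℂ) - 1 ≠ 0 := by
    have : (n : ℂ) - 1 = ((n - 1 : ℤ) : ℂ) := by push_cast; ring
    rw [this]
    exact_mod_cast (by omega : n - 1 ≠ 0)
  have h3 : (n : ℂ) ^ 2 - 1 ≠ 0 := by
    have : (n : ℂ) ^ 2 - 1 = ((n : ℂ) + 1) * ((n : ℂ) - 1) := by ring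
    rw [this]
    exact mul_ne_zero h1 h2
  field_simp
  ring

theorem HkA_zero {P : Par} (h0 : ∀ n, fc P.a0 n = 0) (p r : ℤ → ℂ) : HkA P p r 0 = 0 := by
  unfold HkA dlA
  rw [h0, h0]
  simp

theorem sum_nt (K L : ℕ) (F : ℕ → ℂ) (h0 : ∀ i < bp K, F i = 0) :
    ∑ i ∈ Finset.range (nt K L), F i = ∑ j ∈ Finset.range (L + 1), F (bp K + j)
      + ∑ j ∈ Finset.range (L + 1), F (br K L + j) := by
  unfold nt br
  rw [Finset.sum_range_add, Finset.sum_range_add, Finset.sum_eq_zero fun i hi => h0 i (Finset.mem_range.1 hi), zero_add]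

/-- **THE `H` PART IN THE COORDINATES** -/
theorem HkA_hU {P : Par} {K L : ℕ} (hL : Even L) {e1 e2 : ℤ} {D : ℕ} (hD : 0 < D) (hη : P.eta = hw D e1 e2)
    (h0 : ∀ n, fc P.a0 n = 0) (S : ℕ) (v : ℕ → ℝ) (k : ℕ) :
    HkA P (pV K L v) (rV K L v) k =
      ∑ i ∈ Finset.range (nt K L), (v i : ℂ) * ((hU K L e1 e2 D S i).map (xU (2 * k + 2))).sum := by
  have u0 : ∀ i < bp K, hU K L e1 e2 D S i = [] := fun i hi => by unfold hU; rw [if_pos hi]
  have u1 : ∀ j ∈ Finset.range (L + 1), hU K L e1 e2 D S (bp K + j) = hlistE false e1 e2 D S j := by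
    intro j hj
    rw [Finset.mem_range] at hj
    unfold hU br
    rw [if_neg (by omega), if_pos (by omega), Nat.add_sub_cancel_left]
  have u2 : ∀ j ∈ Finset.range (L + 1), hU K L e1 e2 D S (br K L + j) = hlistE true e1 e2 D S j := by
    intro j hj
    rw [Finset.mem_range] at hj
    unfold hU nt br
    rw [if_neg (by omega), if_neg (by omega), if_pos (by omega), Nat.add_sub_cancel_left]
  rw [sum_nt K L _ fun i hi => by rw [u0 i hi]; simp]
  have s1 : ∑ j ∈ Finset.range (L + 1), (v (bp K + j) : ℂ) * ((hU K L e1 e2 D S (bp K + j)).map (xU (2 * k + 2))).sum =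
      ∑ j ∈ Finset.range (L + 1), (v (bp K + j) : ℂ) * ((hlistE false e1 e2 D S j).map (xU (2 * k + 2))).sum :=
    Finset.sum_congr rfl fun j hj => by rw [u1 j hj]
  have s2 : ∑ j ∈ Finset.range (L + 1), (v (br K L + j) : ℂ) * ((hU K L e1 e2 D S (br K L + j)).map (xU (2 * k + 2))).sum =
      ∑ j ∈ Finset.range (L + 1), (v (br K L + j) : ℂ) * ((hlistE true e1 e2 D S j).map (xU (2 * k + 2))).sum :=
    Finset.sum_congr rfl fun j hj => by rw [u2 j hj]
  rw [s1, s2]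
  cases k with
  | zero =>
    rw [HkA_zero h0]
    have hz : ∀ (b : Bool) (base : ℕ), ∑ j ∈ Finset.range (L + 1), (v (base + j) : ℂ) *
        ((hlistE b e1 e2 D S j).map (xU (2 * 0 + 2))).sum = 0 := fun b base =>
      Finset.sum_eq_zero fun j _ => by
        have : ((hlistE b e1 e2 D S j).map (xU (2 * 0 + 2))).sum = 0 := hlistE_sum2 b S j
        rw [this, mul_zero]
    rw [hz, hz, add_zero]
  | succ k =>
    have hm : ∀ (b : Bool) (base : ℕ), ∑ j ∈ Finset.range (L + 1), (v (base + j) : ℂ) *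
        ((hlistE b e1 e2 D S j).map (xU (2 * (k + 1) + 2))).sum =
        hf b (2 * (k + 1) + 2) * wm P.eta (hV L base v) (2 * ((k + 1 : ℕ) : ℤ) + 2) := by
      intro b base
      rw [← wm_hV hL v P.eta k, Finset.mul_sum]
      refine Finset.sum_congr rfl fun j _ => ?_
      rw [hlistE_sum b hD S j (by omega), hη]
      split_ifs
      · ring
      · ring
    have hr := HkA_row (P := P) h0 (hV_neg L (bp K) v) (hV_neg L (br K L) v) k
    rw [hm, hm]
    exact hr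

end Helper71.SH
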